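import Pool.Agent.H443R3.UD.LimH
import Pool.Agent.H443R3.UD.Unif
import Pool.Agent.H443R3.UD.Sum
import Pool.Agent.H984R3.Per.UpPi
import Pool.Agent.H984R3.Per.LowEV
import Pool.Agent.H985R3.TA.Main
import Pool.Agent.H985R3.TA.STA

/-!
# Uniform dimension theorem for the half-plane exploration path of critical bond percolation

Critical bond percolation on `ℤ × ℕ`, the edges `[x, x + 1]` of the real axis open for `x < 0` and
closed for `x ≥ 0`. The exploration path starts next to the origin and keeps the open cluster `C_-`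
of the negative half-axis on its left; `gam ω k` is its point after `k` steps (at distance `1/4`
from the edges at a vertex of `C_-`), and `curve n ω` is the path `n ^ (-4/7) γ(n t)`, `0 ≤ t ≤ 1`.
Weak limits exist along a subsequence of every sequence `n → ∞`, and for every weak limit, almost
surely, the curve multiplies the Hausdorff dimension of all subsets of its time interval
simultaneously by `7/4`.

Definitions: `Pool.Agent.H984R4.HN.HPDefs` (`Conf`, `perc`, `opn`, `step`, `path`, `place`, `gam`,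
`curve`), `Pool.Agent.H984R4.HN.FinalH` (`lawH`), `Pool.Agent.H984R4.NP.Model` (`pl`, `clamp`).

Formalisation of two auxiliary statements (sum over point sets, deterministic part): helper245,
helper915.
-/

namespace Pool.Agent.Results.MP_6c8efb_pr.UniformDimension

open H984H MeasureTheory Filter Topology

/-- The two-arm bounds in the form used below. -/
theorem inputs : (∃ c : ℝ, 0 < c ∧ H984P.LowA c (1/4)) ∧
    (∃ C : ℝ, 0 < C ∧ H342P.TwoUp C (1/4)) ∧ (∃ C : ℝ, 0 < C ∧ AnnUp C) := by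
  refine ⟨?_, ?_, ?_⟩
  · obtain ⟨B, m0, κ, hκ, h⟩ := H985T.EV_lower
    obtain ⟨c, hc, h2⟩ := H984P.lowA_of_EV (B := B) (m0 := m0) (s := 1/4) hκ (by norm_num)
      (fun m hm => by
        obtain ⟨ρ, c, s, c', f0, h1, h2, h3⟩ := h m hm
        exact ⟨ρ, c, s, c', f0, h2, h1, h3⟩)
    exact ⟨c, hc, h2⟩
  · obtain ⟨C, hC, h⟩ := H985T.pi2_upper
    exact ⟨C, hC, H984P.twoUp_of_pi2 hC (by norm_num) h⟩
  · obtain ⟨C, hC, h⟩ := H985T.st_A
    exact ⟨C, hC, fun r R hr hR c1 c2 S => h r R hr hR c1 c2 S⟩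

theorem result :
    (∀ φ : ℕ → ℕ, Tendsto φ atTop atTop → ∃ ψ : ℕ → ℕ, StrictMono ψ ∧
      ∃ μ : ProbabilityMeasure C(unitInterval, ℂ),
        Tendsto (fun i => lawH (φ (ψ i))) atTop (𝓝 μ)) ∧
    (∀ φ : ℕ → ℕ, Tendsto φ atTop atTop → ∀ μ : ProbabilityMeasure C(unitInterval, ℂ),
      Tendsto (fun i => lawH (φ i)) atTop (𝓝 μ) →
      ∀ᵐ f : C(unitInterval, ℂ) ∂(μ : Measure C(unitInterval, ℂ)), ∀ E : Set unitInterval,
        dimH (f '' E) = 7 / 4 * dimH E) := by
  obtain ⟨⟨c, hc, hL⟩, ⟨C, hC, hU⟩, C2, hC2, hA⟩ := inputs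
  obtain ⟨⟨a, A, ha, hA0, htail⟩, -, -, h4, h5⟩ := finalH hc hC hL hU hC2 hA
  refine ⟨h4, fun φ hφ μ hμ => ?_⟩
  filter_upwards [h5 φ hφ μ hμ, H443Q.limit_occ_all hφ hμ hC hU H443U.Sum.t ha hA0
    (fun n x hn hx => (htail n x hn hx).1)] with f hf ho
  obtain ⟨-, -, -, g4, -⟩ := hf
  exact H443U.Unif.t f g4 fun α h0 h4 => by
    obtain ⟨Λ, -, h⟩ := ho α h0 h4
    exact ⟨Λ, h⟩

end Pool.Agent.Results.MP_6c8efb_pr.UniformDimension
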